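import Pool.Agent.MP_6a4325_al.H62.Base2

/-!
Row AL0: abelian normal subgroups of finite rank, first step.
-/

set_option autoImplicit false

namespace Pool.Agent.MP_6a4325_al.H16

open Pool.Agent.MP_6a4325_al.H62

section Tri

/-- A triangular family of endomorphisms gives infinitely many independent elements. -/
theorem tri {A : Type} [CommGroup A] (v : ℕ → A) (φ : ℕ → A →* A) (T : Set A) (hT : T.Finite)
    (hv : ∀ i, v i ∈ Subgroup.closure T) (h1 : ∀ i j, i < j → φ i (v j) = 1)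
    (h2 : ∀ i, ¬ IsOfFinOrder (φ i (v i))) : False := by
  let w : ℕ → Additive A := fun i => Additive.ofMul (v i)
  have hw : LinearIndependent ℤ w := by
    rw [linearIndependent_iff']
    intro s c hs i
    induction i using Nat.strong_induction_on with
    | _ i ih =>
      intro hi
      have h3 := congrArg (MonoidHom.toAdditive (φ i)) hs
      rw [map_sum, map_zero, Finset.sum_eq_single i] at h3
      · by_contra hc
        refine h2 i (isOfFinOrder_iff_zpow_eq_one.2 ⟨c i, hc, ?_⟩)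
        rw [map_zsmul] at h3
        exact h3
      · intro j hj hji
        rcases lt_or_gt_of_ne hji with h | h
        · rw [ih j h hj, zero_smul, map_zero]
        · rw [map_zsmul]
          have : MonoidHom.toAdditive (φ i) (w j) = 0 := h1 i j h
          rw [this, smul_zero]
      · intro h
        exact absurd hi h
  have hfin : Finite (Additive.ofMul '' T : Set (Additive A)) := (hT.image _).to_subtype
  have hsp : ∀ x ∈ Subgroup.closure T,
      Additive.ofMul x ∈ Submodule.span ℤ (Additive.ofMul '' T : Set (Additive A)) := by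
    intro x hx
    induction hx using Subgroup.closure_induction with
    | mem x hx => exact Submodule.subset_span ⟨x, hx, rfl⟩
    | one => exact zero_mem _
    | mul x y _ _ hx hy => exact add_mem hx hy
    | inv x _ hx => exact neg_mem hx
  have : Finite ℕ := hw.finite_of_le_span_finite w (Additive.ofMul '' T) (by
    rintro _ ⟨i, rfl⟩
    exact hsp _ (hv i))
  exact not_finite ℕ

end Tri

variable {G : Type} [Group G]

/-- the isolator at `p` of a subgroup generated by a subset of an abelian subgroup -/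
def iso (p : ℕ) {B : Subgroup G} (h : Cm B B) (T : Set G) : Subgroup G where
  carrier := {x | x ∈ B ∧ ∃ j : ℕ, x ^ p ^ j ∈ Subgroup.closure T}
  mul_mem' := by
    rintro a b ⟨ha, i, hi⟩ ⟨hb, j, hj⟩
    refine ⟨B.mul_mem ha hb, i + j, ?_⟩
    rw [(show Commute a b from h a ha b hb).mul_pow]
    refine Subgroup.mul_mem _ ?_ ?_
    · rw [pow_add, pow_mul]
      exact Subgroup.pow_mem _ hi _
    · rw [add_comm, pow_add, pow_mul]
      exact Subgroup.pow_mem _ hj _
  one_mem' := ⟨B.one_mem, 0, by rw [one_pow]; exact Subgroup.one_mem _⟩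
  inv_mem' := by
    rintro a ⟨ha, j, hj⟩
    exact ⟨B.inv_mem ha, j, by rw [inv_pow]; exact Subgroup.inv_mem _ hj⟩

theorem mem_iso {p : ℕ} {B : Subgroup G} (h : Cm B B) {T : Set G} {x : G} :
    x ∈ iso p h T ↔ x ∈ B ∧ ∃ j : ℕ, x ^ p ^ j ∈ Subgroup.closure T := Iff.rfl

theorem iso_mono {p : ℕ} {B : Subgroup G} (h : Cm B B) {T T' : Set G} (hT : T ⊆ T') :
    iso p h T ≤ iso p h T' := fun _ ⟨hx, j, hj⟩ => ⟨hx, j, Subgroup.closure_mono hT hj⟩

theorem iso_conj {p : ℕ} {B : Subgroup G} (hB : B.Normal) (h : Cm B B) {T : Set G} (g : G) {x : G}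
    (hx : x ∈ iso p h T) : g * x * g⁻¹ ∈ iso p h ((fun t => g * t * g⁻¹) '' T) := by
  obtain ⟨hx, j, hj⟩ := hx
  refine ⟨hB.conj_mem x hx g, j, ?_⟩
  rw [conj_pow]
  have := Subgroup.mem_map_of_mem (MulAut.conj g).toMonoidHom hj
  rw [MonoidHom.map_closure] at this
  exact this

theorem comm_mem {B : Subgroup G} (hB : B.Normal) (g : G) {b : G} (hb : b ∈ B) :
    g * b * g⁻¹ * b⁻¹ ∈ B := B.mul_mem (hB.conj_mem b hb g) (B.inv_mem hb)

theorem cm_le {B : Subgroup G} (hB : B.Normal) (g : G) : cm B g ≤ B :=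
  (Subgroup.closure_le _).2 fun _ ⟨_, hb, e⟩ => e ▸ comm_mem hB g hb

theorem small_iff {p : ℕ} {B : Subgroup G} (hB : B.Normal) (h : Cm B B) (g : G) :
    Small p B (cm B g) ↔ ∃ T : Finset G, (∀ t ∈ T, t ∈ B) ∧
      ∀ b ∈ B, g * b * g⁻¹ * b⁻¹ ∈ iso p h ↑T := by
  constructor
  · rintro ⟨T, hT, hx⟩
    exact ⟨T, hT, fun b hb => ⟨comm_mem hB g hb, hx _ (Subgroup.subset_closure ⟨b, hb, rfl⟩)⟩⟩
  · rintro ⟨T, hT, hx⟩
    refine ⟨T, hT, fun x hx' => ?_⟩
    have : cm B g ≤ iso p h ↑T := (Subgroup.closure_le _).2 fun _ ⟨b, hb, e⟩ => e ▸ hx b hb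
    exact (this hx').2

/-- the elements with small commutator subgroup -/
def smallSub (p : ℕ) {B : Subgroup G} (hB : B.Normal) (h : Cm B B) : Subgroup G where
  carrier := {g | Small p B (cm B g)}
  one_mem' := (small_iff hB h 1).2 ⟨∅, by simp, fun b _ => by
    rw [one_mul, inv_one, mul_one, mul_inv_cancel]; exact Subgroup.one_mem _⟩
  mul_mem' := by
    classical
    intro g k hg hk
    obtain ⟨T, hT, hx⟩ := (small_iff hB h g).1 hg
    obtain ⟨S, hS, hy⟩ := (small_iff hB h k).1 hk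
    refine (small_iff hB h _).2 ⟨S.image (fun t => g * t * g⁻¹) ∪ T, fun t ht => ?_, fun b hb => ?_⟩
    · rcases Finset.mem_union.1 ht with ht | ht
      · obtain ⟨s, hs, rfl⟩ := Finset.mem_image.1 ht
        exact hB.conj_mem s (hS s hs) g
      · exact hT t ht
    · have e : g * k * b * (g * k)⁻¹ * b⁻¹ =
          g * (k * b * k⁻¹ * b⁻¹) * g⁻¹ * (g * b * g⁻¹ * b⁻¹) := by group
      rw [e, Finset.coe_union, Finset.coe_image]
      exact Subgroup.mul_mem _ (iso_mono h Set.subset_union_left (iso_conj hB h g (hy b hb)))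
        (iso_mono h Set.subset_union_right (hx b hb))
  inv_mem' := by
    classical
    intro g hg
    obtain ⟨T, hT, hx⟩ := (small_iff hB h g).1 hg
    refine (small_iff hB h _).2 ⟨T.image (fun t => g⁻¹ * t * g⁻¹⁻¹), fun t ht => ?_, fun b hb => ?_⟩
    · obtain ⟨s, hs, rfl⟩ := Finset.mem_image.1 ht
      exact hB.conj_mem s (hT s hs) g⁻¹
    · have e : g⁻¹ * b * g⁻¹⁻¹ * b⁻¹ = g⁻¹ * (g * b * g⁻¹ * b⁻¹)⁻¹ * g⁻¹⁻¹ := by group
      rw [e, Finset.coe_image]
      exact iso_conj hB h g⁻¹ (Subgroup.inv_mem _ (hx b hb))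

theorem small_of_relIndex {p : ℕ} {B X : Subgroup G} (h : Cm B B) (hX : X ≤ B) (T : Finset G)
    (hT : ∀ t ∈ T, t ∈ B) (hi : (iso p h ↑T).relIndex X ≠ 0) : Small p B X := by
  classical
  have : Finite (X ⧸ (iso p h ↑T).subgroupOf X) := Nat.finite_of_card_ne_zero hi
  let R : Set G := Set.range fun q : X ⧸ (iso p h ↑T).subgroupOf X => ((q.out : X) : G)
  have hR : R.Finite := Set.finite_range _
  refine ⟨T ∪ hR.toFinset, fun t ht => ?_, fun x hx => ?_⟩
  · rcases Finset.mem_union.1 ht with ht | ht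
    · exact hT t ht
    · obtain ⟨q, rfl⟩ := hR.mem_toFinset.1 ht
      exact hX q.out.2
  · obtain ⟨d, hd⟩ := QuotientGroup.mk_out_eq_mul ((iso p h ↑T).subgroupOf X) ⟨x, hx⟩
    let r : X := (QuotientGroup.mk (s := (iso p h ↑T).subgroupOf X) ⟨x, hx⟩).out
    have hr : (r : G) ∈ iso p h ↑(T ∪ hR.toFinset) :=
      ⟨hX r.2, 0, by
        rw [pow_zero, pow_one]
        refine Subgroup.subset_closure ?_
        rw [Finset.coe_union, Set.Finite.coe_toFinset]
        exact Or.inr ⟨_, rfl⟩⟩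
    have hd' : ((d : X) : G) ∈ iso p h ↑(T ∪ hR.toFinset) :=
      iso_mono h (by rw [Finset.coe_union]; exact Set.subset_union_left) d.2
    have e : x = r * ((d : X) : G)⁻¹ := by
      have : (r : G) = x * ((d : X) : G) := congrArg Subtype.val hd
      rw [this, mul_inv_cancel_right]
    have : x ∈ iso p h ↑(T ∪ hR.toFinset) := by
      rw [e]
      exact Subgroup.mul_mem _ hr (Subgroup.inv_mem _ hd')
    exact this.2

theorem no_tri {B : Subgroup G} (hB : B.Normal) (h : Cm B B) (hr : FinRk B) (g b : ℕ → G)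
    (hb : ∀ i, b i ∈ B) (h1 : ∀ i j, i < j → g i * b j = b j * g i)
    (h2 : ∀ i, ¬ IsOfFinOrder (g i * b i * (g i)⁻¹ * (b i)⁻¹)) : False := by
  obtain ⟨T, hT, hm⟩ := hr
  choose m hm0 hm1 using fun i => hm (b i) (hb i)
  letI := h.commGroup
  let φ : ℕ → B →* B := fun i => MonoidHom.mk'
    (fun a => ⟨g i * a * (g i)⁻¹ * (a : G)⁻¹, comm_mem hB _ a.2⟩) fun a c => Subtype.ext (by
      have e := h _ (B.inv_mem a.2) _ (comm_mem hB (g i) c.2)
      show g i * (a * c) * (g i)⁻¹ * ((a : G) * c)⁻¹ =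
        g i * a * (g i)⁻¹ * (a : G)⁻¹ * (g i * c * (g i)⁻¹ * (c : G)⁻¹)
      rw [mul_assoc (g i * a * (g i)⁻¹), e]
      group)
  have hφ : ∀ i (a : B), ((φ i a : B) : G) = g i * a * (g i)⁻¹ * (a : G)⁻¹ := fun _ _ => rfl
  refine tri (fun i => (⟨b i, hb i⟩ : B) ^ m i) φ (B.subtype ⁻¹' ↑T)
    (T.finite_toSet.preimage B.subtype_injective.injOn) (fun i => ?_) (fun i j hij => ?_)
    fun i hi => ?_
  · have h3 : (Subgroup.closure (B.subtype ⁻¹' ↑T)).map B.subtype = Subgroup.closure (↑T : Set G) := by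
      rw [MonoidHom.map_closure, Set.image_preimage_eq_of_subset]
      intro t ht
      exact ⟨⟨t, hT t ht⟩, rfl⟩
    have h4 := hm1 i
    rw [← h3] at h4
    obtain ⟨y, hy, e⟩ := h4
    have : y = (⟨b i, hb i⟩ : B) ^ m i := Subtype.ext e
    exact this ▸ hy
  · have : φ i ⟨b j, hb j⟩ = 1 := Subtype.ext (by
      rw [hφ]
      show g i * b j * (g i)⁻¹ * (b j)⁻¹ = 1
      rw [h1 i j hij]
      group)
    rw [map_pow, this, one_pow]
  · rw [map_pow] at hi
    have h3 := (isOfFinOrder_pow.1 hi).resolve_right (hm0 i).ne'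
    exact h2 i (B.subtype.isOfFinOrder h3)

theorem al0 : SOrb1 → SOrb2 → SAL0 := by
  classical
  intro o1 o2 p _ G _ B hB h hp hr ho
  let N := smallSub p hB h
  have hN : N.FiniteIndex := by
    obtain ⟨T, hT, hm⟩ := hr
    have hD : ∀ b ∈ B, PrimeTo p (iso p h ↑T) b := fun b hb => by
      obtain ⟨m, hm0, hm1⟩ := hm b hb
      refine primeTo_of_pow hm0 ⟨B.pow_mem hb m, 0, by rwa [pow_zero, pow_one]⟩ ?_
      rintro n j ⟨_, i, hi⟩
      exact ⟨B.pow_mem hb n, j + i, by rwa [pow_add, pow_mul]⟩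
    exact o1 p G B (iso p h ↑T) N ⊤ hB h ho (fun _ hx => hx.1) inferInstance
      (fun g _ b hb => hD _ (comm_mem hB g hb))
      fun g _ hi => small_of_relIndex h (cm_le hB g) T hT hi
  have hBN : B ≤ N := fun g hg => (small_iff hB h g).2 ⟨∅, by simp, fun b hb => by
    rw [h g hg b hb, mul_inv_cancel_right, mul_inv_cancel]; exact Subgroup.one_mem _⟩
  by_contra hc
  have key : ∀ T : Finset G, (∀ t ∈ T, t ∈ N) →
      ∃ b ∈ B, (∀ t ∈ T, t * b = b * t) ∧ ∃ g ∈ N, g * b ≠ b * g := fun T hT => by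
    by_contra h3
    push Not at h3
    exact hc ⟨N, T, hN, hBN, hT, fun _ hg => hg, h3⟩
  by_cases hA : ∀ T : Finset G, (∀ t ∈ T, t ∈ N) → ∃ b ∈ B, (∀ t ∈ T, t * b = b * t) ∧
      ∃ g ∈ N, g * b ≠ b * g ∧ IsOfFinOrder (g * b * g⁻¹ * b⁻¹)
  · obtain ⟨f, hf, hf'⟩ := exists_seq_of_forall_finset_exists
      (fun x : G × G => x.1 ∈ N ∧ x.2 ∈ B ∧ x.1 * x.2 ≠ x.2 * x.1 ∧
        IsOfFinOrder (x.1 * x.2 * x.1⁻¹ * x.2⁻¹))
      (fun x y => x.1 * y.2 = y.2 * x.1) fun s hs => by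
        obtain ⟨b, hb, h3, g, hg, h4⟩ := hA (s.image Prod.fst) fun t ht => by
          obtain ⟨x, hx, rfl⟩ := Finset.mem_image.1 ht
          exact (hs x hx).1
        exact ⟨(g, b), ⟨hg, hb, h4⟩, fun x hx => h3 _ (Finset.mem_image_of_mem _ hx)⟩
    obtain ⟨i, hi⟩ := o2 p G B hB h ho (fun i => (f i).1) (fun i => (f i).2)
      (fun i => (hf i).2.1) hf' fun i => hp.primeTo (comm_mem hB _ (hf i).2.1) (hf i).2.2.2
    exact (hf i).2.2.1 hi
  · push Not at hA
    obtain ⟨T₀, hT₀, hA⟩ := hA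
    obtain ⟨f, hf, hf'⟩ := exists_seq_of_forall_finset_exists
      (fun x : G × G => x.1 ∈ N ∧ x.2 ∈ B ∧ ¬ IsOfFinOrder (x.1 * x.2 * x.1⁻¹ * x.2⁻¹))
      (fun x y => x.1 * y.2 = y.2 * x.1) fun s hs => by
        obtain ⟨b, hb, h3, g, hg, h4⟩ := key (T₀ ∪ s.image Prod.fst) fun t ht => by
          rcases Finset.mem_union.1 ht with ht | ht
          · exact hT₀ t ht
          · obtain ⟨x, hx, rfl⟩ := Finset.mem_image.1 ht
            exact (hs x hx).1
        exact ⟨(g, b), ⟨hg, hb, hA b hb (fun t ht => h3 t (Finset.mem_union_left _ ht)) g hg h4⟩,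
          fun x hx => h3 _ (Finset.mem_union_right _ (Finset.mem_image_of_mem _ hx))⟩
    exact no_tri hB h hr (fun i => (f i).1) (fun i => (f i).2) (fun i => (hf i).2.1) hf'
      fun i => (hf i).2.2

end Pool.Agent.MP_6a4325_al.H16
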