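import Pool.Agent.MP_6a4325_al.H84.Spec3

/-!
Row PLB: the normal closure of a plinth of a big subgroup has a locally finite derived group.
-/

set_option autoImplicit false

namespace Pool.Agent.MP_6a4325_al.H16

open Pool.Agent.MP_6a4325_al.H62 Pool.Agent.MP_6a4325_al.H84

namespace PlbA

variable {G K : Type} [Group G] [Group K]

/-- A plinth with respect to the subgroup `N` of `H`. -/
def Pl (N H P : Subgroup G) : Prop :=
  P ≤ H ∧ Nz P N ∧ Cm P P ∧ Tf P ∧ ∀ B ≤ P, Nz B N → B = ⊥ ∨ B.relIndex P ≠ 0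

theorem pl_of (j : K →* G) (hj : Function.Injective j) {A : Subgroup K} (hA : Plinth A)
    {N H : Subgroup G} (h1 : j.range ≤ H) (h2 : N.relIndex H ≠ 0) (h3 : N ≤ j.range) :
    Pl N H (A.map j) := by
  obtain ⟨hn, -, -, hc, ht, hp⟩ := hA
  refine ⟨(A.map_le_range j).trans h1, ?_, ?_, ?_, fun B hB hz => ?_⟩
  · rintro x hx _ ⟨a, ha, rfl⟩
    obtain ⟨k, rfl⟩ := h3 hx
    exact ⟨k * a * k⁻¹, hn.conj_mem a ha k, by rw [map_mul, map_mul, map_inv]⟩
  · rintro _ ⟨a, ha, rfl⟩ _ ⟨b, hb, rfl⟩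
    rw [← map_mul, hc a ha b hb, map_mul]
  · rintro _ ⟨a, ha, rfl⟩ hf
    rw [ht a ha (hj.isOfFinOrder_iff.1 hf), map_one]
  · have h4 : (N.comap j).FiniteIndex :=
      ⟨by rw [Subgroup.index_comap]
          exact fun e => h2 (Subgroup.relIndex_eq_zero_of_le_right h1 e)⟩
    have h5 : B.comap j ≤ A := fun x hx => by
      obtain ⟨a, ha, e⟩ := hB hx
      exact hj e ▸ ha
    have h6 : Nz (B.comap j) (N.comap j) := fun k hk b hb => by
      rw [Subgroup.mem_comap, map_mul, map_mul, map_inv]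
      exact hz _ hk _ hb
    refine (hp _ h4 _ h5 h6).imp (fun e => ?_) fun e => ?_
    · rw [eq_bot_iff]
      intro x hx
      obtain ⟨a, -, rfl⟩ := hB hx
      have h7 : a ∈ B.comap j := hx
      rw [e, Subgroup.mem_bot] at h7
      rw [h7, map_one]
      exact one_mem _
    · rwa [Subgroup.relIndex_comap] at e

theorem root {P : Subgroup G} (hc : Cm P P) (ht : Tf P) {x y : G} (hx : x ∈ P) (hy : y ∈ P)
    {m : ℕ} (hm : 0 < m) (e : x ^ m = y ^ m) : x = y := by
  have h1 : Commute x y⁻¹ := hc x hx y⁻¹ (P.inv_mem hy)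
  have h2 := ht (x * y⁻¹) (P.mul_mem hx (P.inv_mem hy))
    (isOfFinOrder_iff_pow_eq_one.2 ⟨m, hm, by rw [h1.mul_pow, e, inv_pow, mul_inv_cancel]⟩)
  exact mul_inv_eq_one.1 h2

/-- An element that normalises `P` and commutes with a power of `b ∈ P` commutes with `b`. -/
theorem comm_of_pow {P : Subgroup G} (hc : Cm P P) (ht : Tf P) {x b : G} (hb : b ∈ P)
    (hx : x * b * x⁻¹ ∈ P) {m : ℕ} (hm : 0 < m) (e : x * b ^ m = b ^ m * x) : x * b = b * x := by
  have h1 := root hc ht hx hb hm (by rw [conj_pow, e, mul_inv_cancel_right])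
  exact mul_inv_eq_iff_eq_mul.1 h1

theorem two {N H P P' : Subgroup G} (hN : N.relIndex H ≠ 0) (h : Pl N H P) (h' : Pl N H P')
    {a : G} (ha : a ∈ P) : ∃ m : ℕ, 0 < m ∧ ∀ b ∈ P', a ^ m * b = b * a ^ m := by
  obtain ⟨h1, h2, -, -, h5⟩ := h
  obtain ⟨k1, k2, k3, k4, -⟩ := h'
  rcases h5 (P ⊓ P') inf_le_left (fun n hn x hx => ⟨h2 n hn x hx.1, k2 n hn x hx.2⟩) with e | e
  · obtain ⟨m, hm, -, h6⟩ := Subgroup.exists_pow_mem_of_relIndex_ne_zero hN (h1 ha)
    refine ⟨m, hm, fun b hb => ?_⟩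
    obtain ⟨n, hn, -, h7⟩ := Subgroup.exists_pow_mem_of_relIndex_ne_zero hN (k1 hb)
    refine comm_of_pow k3 k4 hb (k2 _ h6.1 b hb) hn ?_
    have h8 : a ^ m * b ^ n * (a ^ m)⁻¹ * (b ^ n)⁻¹ ∈ P ⊓ P' := by
      refine ⟨?_, P'.mul_mem (k2 _ h6.1 _ (P'.pow_mem hb n)) (P'.inv_mem (P'.pow_mem hb n))⟩
      have h9 := P.mul_mem (P.pow_mem ha m) (h2 _ h7.1 _ (P.inv_mem (P.pow_mem ha m)))
      rwa [← mul_assoc, ← mul_assoc] at h9
    rw [e, Subgroup.mem_bot, mul_inv_eq_one, mul_inv_eq_iff_eq_mul] at h8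
    exact h8
  · obtain ⟨m, hm, -, h6⟩ := Subgroup.exists_pow_mem_of_relIndex_ne_zero e ha
    exact ⟨m, hm, fun b hb => k3 _ h6.1.2 b hb⟩

/-- The elements of `N` in the group generated by finitely many plinths are central in it. -/
theorem cen {ι : Type} {N H : Subgroup G} (hN : N.relIndex H ≠ 0) (S : Finset ι)
    {P : ι → Subgroup G} (h : ∀ g ∈ S, Pl N H (P g)) {e x : G} (he : e ∈ N)
    (he' : e ∈ ⨆ g ∈ S, P g) (hx : x ∈ ⨆ g ∈ S, P g) : x * e = e * x := by
  have h1 : (⨆ g ∈ S, P g) ≤ Subgroup.centralizer {e} := by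
    refine iSup₂_le fun g hg a ha => ?_
    choose m hm hc using fun g' : S => two hN (h g hg) (h g'.1 g'.2) ha
    have h2 : (⨆ g ∈ S, P g) ≤ Subgroup.centralizer {a ^ ∏ g', m g'} := by
      refine iSup₂_le fun g' hg' b hb => ?_
      obtain ⟨c, hc'⟩ := Finset.dvd_prod_of_mem m (Finset.mem_univ ⟨g', hg'⟩)
      have h3 : Commute (a ^ m ⟨g', hg'⟩) b := hc _ b hb
      rw [Subgroup.mem_centralizer_singleton_iff, hc', pow_mul]
      exact (h3.pow_left c).symm
    obtain ⟨-, k2, k3, k4, -⟩ := h g hg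
    exact Subgroup.mem_centralizer_singleton_iff.2 (comm_of_pow k3 k4 ha (k2 e he a ha)
      (Finset.prod_pos fun g' _ => hm g') (Subgroup.mem_centralizer_singleton_iff.1 (h2 he'))).symm
  exact Subgroup.mem_centralizer_singleton_iff.1 (h1 hx)

/-- The conjugate of an embedding. -/
def cj (i : K →* G) (g : G) : K →* G := (MulAut.conj g).toMonoidHom.comp i

theorem cj_apply (i : K →* G) (g : G) (k : K) : cj i g k = g * i k * g⁻¹ := rfl

theorem sup_mono' {ι : Type} {S S' : Finset ι} (h : S ⊆ S') (P : ι → Subgroup G) {x : G}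
    (hx : x ∈ ⨆ g ∈ S, P g) : x ∈ ⨆ g ∈ S', P g :=
  (show (⨆ g ∈ S, P g) ≤ ⨆ g ∈ S', P g from biSup_mono fun _ hg => h hg) hx

theorem fin_sup (i : K →* G) (A : Subgroup K) {x : G}
    (hx : x ∈ Subgroup.normalClosure (A.map i : Set G)) :
    ∃ S : Finset G, x ∈ ⨆ g ∈ S, A.map (cj i g) := by
  classical
  induction hx using Subgroup.closure_induction with
  | mem x hx =>
    obtain ⟨_, ⟨a, ha, rfl⟩, h1⟩ := Group.mem_conjugatesOfSet_iff.1 hx
    obtain ⟨g, rfl⟩ := isConj_iff.1 h1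
    exact ⟨{g}, le_biSup (fun g => A.map (cj i g)) (Finset.mem_singleton_self g) ⟨a, ha, rfl⟩⟩
  | one => exact ⟨∅, one_mem _⟩
  | mul x y _ _ hx hy =>
    obtain ⟨S, hS⟩ := hx
    obtain ⟨S', hS'⟩ := hy
    exact ⟨S ∪ S', mul_mem (sup_mono' Finset.subset_union_left _ hS)
      (sup_mono' Finset.subset_union_right _ hS')⟩
  | inv x _ hx => exact hx.imp fun _ h => inv_mem h

end PlbA

open PlbA in
theorem plb : SPlb := by
  intro G K _ _ i hi hbig A hA
  classical
  refine lfd_of_center fun T => ?_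
  choose S₀ hS₀ using fun x : Subgroup.normalClosure (A.map i : Set G) => fin_sup i A x.2
  let S : Finset G := T.biUnion S₀
  let H : Subgroup G := i.range ⊔ Subgroup.closure (↑S : Set G)
  have hH : i.range.relIndex H ≠ 0 := hbig.2 H (hbig.1.sup ⟨S, rfl⟩) le_sup_left
  have hf : (i.range.subgroupOf H).FiniteIndex := ⟨hH⟩
  let N : Subgroup G := (i.range.subgroupOf H).normalCore.map H.subtype
  have hN : N.relIndex H ≠ 0 := by
    have h1 : N.subgroupOf H = (i.range.subgroupOf H).normalCore :=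
      Subgroup.comap_map_eq_self_of_injective H.subtype_injective _
    rw [Subgroup.relIndex, h1]
    exact Subgroup.FiniteIndex.index_ne_zero
  have hP : ∀ g ∈ S, Pl N H (A.map (cj i g)) := fun g hg => by
    have h1 : g ∈ H := Subgroup.mem_sup_right (Subgroup.subset_closure hg)
    refine pl_of _ ((MulAut.conj g).injective.comp hi) hA ?_ hN ?_
    · rintro _ ⟨k, rfl⟩
      exact H.mul_mem (H.mul_mem h1 (Subgroup.mem_sup_left ⟨k, rfl⟩)) (H.inv_mem h1)
    · rintro _ ⟨x, hx, rfl⟩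
      obtain ⟨k, hk⟩ := hx (⟨g, h1⟩ : H)⁻¹
      have h2 : i k = g⁻¹ * x * g⁻¹⁻¹ := hk
      refine ⟨k, ?_⟩
      rw [cj_apply, h2, Subgroup.coe_subtype]
      group
  let φ : Subgroup.closure (↑T : Set (Subgroup.normalClosure (A.map i : Set G))) →* G :=
    (Subgroup.subtype _).comp (Subgroup.subtype _)
  have hE : ∀ x, φ x ∈ ⨆ g ∈ S, A.map (cj i g) := fun x => by
    have h1 : Subgroup.closure (↑T : Set (Subgroup.normalClosure (A.map i : Set G))) ≤
        (⨆ g ∈ S, A.map (cj i g)).comap (Subgroup.subtype _) := by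
      rw [Subgroup.closure_le]
      exact fun t ht => sup_mono' (Finset.subset_biUnion_of_mem S₀ ht) _ (hS₀ t)
    exact h1 x.2
  have h1 : φ.range ≤ H := by
    rintro _ ⟨x, rfl⟩
    exact iSup₂_le (fun g hg => (hP g hg).1) (hE x)
  have h2 : (N.comap φ).FiniteIndex :=
    ⟨by rw [Subgroup.index_comap]
        exact fun e => hN (Subgroup.relIndex_eq_zero_of_le_right h1 e)⟩
  refine Subgroup.finiteIndex_of_le (H := N.comap φ) fun e he => ?_
  rw [Subgroup.mem_center_iff]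
  exact fun x => Subtype.ext (Subtype.ext (cen hN S hP he (hE e) (hE x)))

end Pool.Agent.MP_6a4325_al.H16
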